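import Mathlib

set_option autoImplicit false

/-!
# `H_42(49) = H_45(47)`

`H_d(n) = 1 + n! / ((n - d)! d)` for `d ≤ n < 2 d`, and `49! / (7! * 42) = 47! / (2! * 45)`.
-/

namespace Pool.Agent.Results.MP_2d70c5_nt.EqualValue

open Equiv.Perm

/-- the number of permutations of an `n`-element set in which every cycle has length `1` or `d`
(the `cycleType` of a permutation is the multiset of the lengths `≥ 2` of its cycles) -/
def H (d n : ℕ) : ℕ :=
  ((Finset.univ : Finset (Equiv.Perm (Fin n))).filter (fun σ => ∀ k ∈ σ.cycleType, k = d)).card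

theorem H_eq (d n : ℕ) (hd : 2 ≤ d) (h1 : d ≤ n) (h2 : n < 2 * d) :
    H d n = 1 + (d - 1).factorial * n.choose d := by
  classical
  have hset : ((Finset.univ : Finset (Equiv.Perm (Fin n))).filter
      (fun σ => ∀ k ∈ σ.cycleType, k = d)) =
      {(1 : Equiv.Perm (Fin n))} ∪
        ((Finset.univ : Finset (Equiv.Perm (Fin n))).filter (fun σ => σ.cycleType = {d})) := by
    ext σ
    simp only [Finset.mem_filter, Finset.mem_univ, true_and, Finset.mem_union,
      Finset.mem_singleton]
    constructor
    · intro h
      have h3 : σ.cycleType = Multiset.replicate (Multiset.card σ.cycleType) d :=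
        Multiset.eq_replicate.mpr ⟨rfl, h⟩
      have h4 : σ.cycleType.sum ≤ n := by
        have := σ.sum_cycleType
        rw [this]
        exact (Finset.card_le_univ _).trans (by simp)
      rw [h3, Multiset.sum_replicate, smul_eq_mul] at h4
      have h5 : Multiset.card σ.cycleType < 2 := by
        by_contra hcon
        have : 2 * d ≤ Multiset.card σ.cycleType * d := Nat.mul_le_mul_right _ (by omega)
        omega
      interval_cases hc : Multiset.card σ.cycleType
      · left
        rw [← cycleType_eq_zero]
        exact Multiset.card_eq_zero.mp hc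
      · right
        rw [h3]
        simp
    · rintro (h | h)
      · subst h
        simp
      · rw [h]
        simp
  have hdisj : Disjoint ({(1 : Equiv.Perm (Fin n))} : Finset (Equiv.Perm (Fin n)))
      ((Finset.univ : Finset (Equiv.Perm (Fin n))).filter (fun σ => σ.cycleType = {d})) := by
    rw [Finset.disjoint_singleton_left]
    simp only [Finset.mem_filter, Finset.mem_univ, true_and, cycleType_one]
    intro h
    exact Multiset.singleton_ne_zero d h.symm
  rw [H, hset, Finset.card_union_of_disjoint hdisj, Finset.card_singleton]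
  congr 1
  have h6 := card_of_cycleType_singleton (α := Fin n) hd (by simpa using h1)
  rw [Fintype.card_fin] at h6
  exact h6

/-- `H_42(49) = H_45(47)`, where `49 ≥ 42` and `47 ≥ 45`: the answer to Q1 is yes -/
theorem result : ∃ a b n m : ℕ, 2 ≤ a ∧ a < b ∧ a ≤ n ∧ b ≤ m ∧ H a n = H b m := by
  refine ⟨42, 45, 49, 47, by norm_num, by norm_num, by norm_num, by norm_num, ?_⟩
  rw [H_eq 42 49 (by norm_num) (by norm_num) (by norm_num),
    H_eq 45 47 (by norm_num) (by norm_num) (by norm_num)]
  decide +kernel

end Pool.Agent.Results.MP_2d70c5_nt.EqualValue
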